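import Pool.Agent.helper12.PFS.Spec2

/-!
Row pfs:CHN: an elementary abelian normal subgroup of a finite solvable group inside a normal
subgroup.
-/

set_option autoImplicit false

namespace Pool.Agent.PFS

open scoped commutatorElement

theorem CHN : CHN_stmt := by
  classical
  intro G _ _ N _ hs hc
  have hsN : Group.IsSolvable N := inferInstance
  have hex : ∃ n, derivedSeries N n = ⊥ := hsN.solvable
  have hn := Nat.find_spec hex
  have hmin := fun m => Nat.find_min hex (m := m)
  generalize Nat.find hex = n at hn hmin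
  have hn0 : n ≠ 0 := by
    rintro rfl
    rw [derivedSeries_zero] at hn
    have h1 : Nat.card (⊤ : Subgroup N) = Nat.card (⊥ : Subgroup N) := by rw [hn]
    rw [Subgroup.card_top, Subgroup.card_bot] at h1
    omega
  obtain ⟨k, rfl⟩ := Nat.exists_eq_succ_of_ne_zero hn0
  have hA : derivedSeries N k ≠ ⊥ := hmin k (Nat.lt_succ_self k)
  have hcomm : ∀ x ∈ derivedSeries N k, ∀ y ∈ derivedSeries N k, x * y = y * x := by
    intro x hx y hy
    have h1 : ⁅x, y⁆ ∈ derivedSeries N (k + 1) := by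
      rw [derivedSeries_succ]
      exact Subgroup.commutator_mem_commutator hx hy
    rw [show derivedSeries N (k + 1) = ⊥ from hn, Subgroup.mem_bot] at h1
    exact commutatorElement_eq_one_iff_mul_comm.1 h1
  have hcard : Nat.card (derivedSeries N k) ≠ 1 := by
    intro h1
    exact hA (Subgroup.card_eq_one.1 h1)
  obtain ⟨p, hp, hpd⟩ := Nat.exists_prime_and_dvd hcard
  have : Fact p.Prime := ⟨hp⟩
  obtain ⟨x0, hx0⟩ := exists_prime_orderOf_dvd_card' p hpd
  have hch : (derivedSeries N k).Characteristic := inferInstance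
  have hnorm : ((derivedSeries N k).map N.subtype).Normal := inferInstance
  have hcomm' : ∀ x ∈ (derivedSeries N k).map N.subtype, ∀ y ∈ (derivedSeries N k).map N.subtype,
      x * y = y * x := by
    rintro _ ⟨x, hx, rfl⟩ _ ⟨y, hy, rfl⟩
    rw [← map_mul, ← map_mul, hcomm x hx y hy]
  let K : Subgroup G :=
    { carrier := {x | x ∈ (derivedSeries N k).map N.subtype ∧ x ^ p = 1}
      mul_mem' := by
        rintro a b ⟨ha, ha'⟩ ⟨hb, hb'⟩
        refine ⟨mul_mem ha hb, ?_⟩
        have h1 : Commute a b := hcomm' a ha b hb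
        rw [h1.mul_pow, ha', hb', one_mul]
      one_mem' := ⟨one_mem _, one_pow _⟩
      inv_mem' := by
        rintro a ⟨ha, ha'⟩
        exact ⟨inv_mem ha, by rw [inv_pow, ha', inv_one]⟩ }
  have hKmem : ∀ x, x ∈ K ↔ x ∈ (derivedSeries N k).map N.subtype ∧ x ^ p = 1 := fun x => Iff.rfl
  refine ⟨p, K, hp, ⟨?_⟩, ?_, ?_, ?_, ?_⟩
  · intro x hx g
    obtain ⟨h1, h2⟩ := (hKmem x).1 hx
    refine (hKmem _).2 ⟨hnorm.conj_mem x h1 g, ?_⟩
    rw [conj_pow, h2, mul_one, mul_inv_cancel]
  · intro x hx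
    obtain ⟨⟨y, _, rfl⟩, _⟩ := (hKmem x).1 hx
    exact y.2
  · have hx1 : ((x0 : N) : G) ∈ K := by
      refine (hKmem _).2 ⟨⟨(x0 : N), x0.2, rfl⟩, ?_⟩
      have h1 : x0 ^ p = 1 := by rw [← hx0, pow_orderOf_eq_one]
      have h2 := congrArg (fun t : derivedSeries N k => ((t : N) : G)) h1
      exact h2
    have hx2 : ((x0 : N) : G) ≠ 1 := by
      intro h1
      have h2 : x0 = 1 := Subtype.ext (Subtype.ext h1)
      rw [h2, orderOf_one] at hx0
      exact hp.one_lt.ne hx0
    rw [Finite.one_lt_card_iff_nontrivial]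
    exact ⟨⟨⟨((x0 : N) : G), hx1⟩, 1, fun h => hx2 (congrArg Subtype.val h)⟩⟩
  · intro x hx y hy
    exact hcomm' x ((hKmem x).1 hx).1 y ((hKmem y).1 hy).1
  · intro x hx
    exact ((hKmem x).1 hx).2

end Pool.Agent.PFS
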